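import Pool.Agent.Helper80.KC.Goals

/-!
Packet KC-A2C (helper4): from axes to configurations.
-/

set_option autoImplicit false

open Module

namespace Pool.Agent.Helper4.KC

open Pool.Agent.Helper80.KC

theorem exists_foot {n : ℕ} (L : AffineSubspace ℝ (E n)) (hL : (L : Set (E n)).Nonempty) :
    ∃ q ∈ L, q ∈ L.directionᗮ ∧ ‖q‖ = Metric.infDist 0 (L : Set (E n)) := by
  obtain ⟨x, hx⟩ := hL
  have hx' : x ∈ L := hx
  set u := L.direction.starProjection x with hu
  have hu' : u ∈ L.direction := Submodule.starProjection_apply_mem _ _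
  have hq : x - u ∈ L := by
    have h1 := AffineSubspace.vadd_mem_of_mem_direction (L.direction.neg_mem hu') hx'
    rwa [vadd_eq_add, neg_add_eq_sub] at h1
  have hq' : x - u ∈ L.directionᗮ := Submodule.sub_starProjection_mem_orthogonal x
  refine ⟨x - u, hq, hq', le_antisymm ?_ ?_⟩
  · rw [Metric.le_infDist ⟨x, hx⟩]
    intro y hy
    have hy' : y ∈ L := hy
    have h2 : y - (x - u) ∈ L.direction := by
      have := AffineSubspace.vsub_mem_direction hy' hq
      rwa [vsub_eq_sub] at this
    have h3 : inner ℝ (x - u) (y - (x - u)) = 0 := by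
      rw [real_inner_comm]
      exact (Submodule.mem_orthogonal _ _).1 hq' _ h2
    rw [dist_zero_left]
    have h4 : ‖y‖ ^ 2 = ‖x - u‖ ^ 2 + ‖y - (x - u)‖ ^ 2 := by
      have h5 : y = (x - u) + (y - (x - u)) := by abel
      conv_lhs => rw [h5]
      rw [norm_add_sq_real, h3]
      ring
    have h6 : ‖x - u‖ ^ 2 ≤ ‖y‖ ^ 2 := by
      rw [h4]
      have := sq_nonneg ‖y - (x - u)‖
      linarith
    exact (abs_le_abs_of_nonneg (norm_nonneg _) (le_of_sq_le_sq h6 (norm_nonneg _))).trans_eq
      (abs_of_nonneg (norm_nonneg _)) |>.trans' (le_abs_self _)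
  · have := Metric.infDist_le_dist_of_mem (x := (0 : E n)) (show x - u ∈ (L : Set (E n)) from hq)
    rwa [dist_zero_left] at this

theorem goalA2C : G_A2C := by
  intro k j hA
  obtain ⟨L, hL, hd⟩ := hA
  have hfoot : ∀ i, ∃ q ∈ L i, q ∈ (L i).directionᗮ ∧ ‖q‖ = 2 := by
    intro i
    obtain ⟨q, h1, h2, h3⟩ := exists_foot (L i) (hL i).1
    exact ⟨q, h1, h2, h3.trans (hL i).2.2⟩
  choose q hqL hqN hq2 using hfoot
  have hf : ∀ i j', ∃ f : E (3 + j), i ≠ j' → f ∈ (L i).directionᗮ ∧ f ∈ (L j').directionᗮ ∧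
      ‖f‖ = 1 ∧ 1 ≤ |inner ℝ ((1 / 2 : ℝ) • q i - (1 / 2 : ℝ) • q j') f| := by
    intro i j'
    by_cases hij : i = j'
    · exact ⟨0, fun h => absurd hij h⟩
    set K := (L i).directionᗮ ⊓ (L j').directionᗮ with hK
    set g := K.starProjection (q i - q j') with hg
    have hgK : g ∈ K := Submodule.starProjection_apply_mem _ _
    have hgo : q i - q j' - g ∈ Kᗮ := Submodule.sub_starProjection_mem_orthogonal _
    have hKo : Kᗮ = (L i).direction ⊔ (L j').direction := by
      rw [hK, Submodule.inf_orthogonal, Submodule.orthogonal_orthogonal]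
    have hmem : q i - q j' - g ∈ (L i).direction ⊔ (L j').direction := hKo ▸ hgo
    obtain ⟨a, ha, b, hb, hab⟩ := Submodule.mem_sup.1 hmem
    have h1 : q i - a ∈ L i := by
      have h1 := AffineSubspace.vadd_mem_of_mem_direction ((L i).direction.neg_mem ha) (hqL i)
      rwa [vadd_eq_add, neg_add_eq_sub] at h1
    have h2 : q j' + b ∈ L j' := by
      have h1 := AffineSubspace.vadd_mem_of_mem_direction hb (hqL j')
      rwa [vadd_eq_add, add_comm b (q j')] at h1
    have h3 : g = (q i - a) - (q j' + b) := by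
      have : q i - q j' - g = a + b := hab.symm
      have h4 : g = q i - q j' - (a + b) := by rw [← this]; abel
      rw [h4]
      abel
    have h4 : 2 ≤ ‖g‖ := by
      rw [h3, ← dist_eq_norm]
      exact hd i j' hij _ h1 _ h2
    have hg0 : 0 < ‖g‖ := by linarith
    have hin : inner ℝ (q i - q j') g = ‖g‖ ^ 2 := by
      have h5 : inner ℝ (q i - q j' - g) g = 0 := by
        rw [real_inner_comm]
        exact (Submodule.mem_orthogonal _ _).1 hgo g hgK
      rw [inner_sub_left, real_inner_self_eq_norm_sq] at h5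
      linarith
    refine ⟨‖g‖⁻¹ • g, fun _ => ⟨Submodule.smul_mem _ _ hgK.1, Submodule.smul_mem _ _ hgK.2, ?_, ?_⟩⟩
    · rw [norm_smul, norm_inv, norm_norm, inv_mul_cancel₀ hg0.ne']
    · rw [← smul_sub, inner_smul_left, inner_smul_right, hin]
      have h6 : (starRingEnd ℝ) (1 / 2 : ℝ) * (‖g‖⁻¹ * ‖g‖ ^ 2) = ‖g‖ / 2 := by
        have : (starRingEnd ℝ) (1 / 2 : ℝ) = 1 / 2 := rfl
        rw [this]
        field_simp
      rw [h6, abs_of_pos (by linarith)]
      linarith
  choose f hf using hf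
  refine ⟨fun i => (L i).directionᗮ, fun i => (1 / 2 : ℝ) • q i, f, ?_⟩
  refine
    { dim := ?_, pm := ?_, pn := ?_, fl := fun i j' h => (hf i j' h).1
      fr := fun i j' h => (hf i j' h).2.1, fn := fun i j' h => (hf i j' h).2.2.1
      sep := fun i j' h => (hf i j' h).2.2.2 }
  · intro i
    have h1 := (L i).direction.finrank_add_finrank_orthogonal
    rw [(hL i).2.1, finrank_euclideanSpace, Fintype.card_fin] at h1
    show finrank ℝ ((L i).directionᗮ) = 3
    omega
  · intro i
    exact Submodule.smul_mem _ _ (hqN i)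
  · intro i
    show ‖(1 / 2 : ℝ) • q i‖ = 1
    rw [norm_smul, hq2 i, Real.norm_of_nonneg (by norm_num)]
    norm_num

end Pool.Agent.Helper4.KC
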