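import Pool.Agent.Helper94.KC.Goals

/-!
# Project KC (MP_bf413e_co), packet QD: degeneracy of the quotient
-/

set_option autoImplicit false

namespace Pool.Agent.Helper4.KC

open scoped Classical
open Finset
open Pool.Agent.Helper94.KC

theorem mem_hB (n : ℕ) (p : ℤ × ℤ) : p ∈ hB n ↔ hn p ≤ n := by
  unfold hB
  rw [mem_filter, mem_product, mem_Icc, mem_Icc]
  constructor
  · intro h
    exact h.2
  · intro h
    refine ⟨?_, h⟩
    unfold hn at h
    omega

theorem hn_step (p q : ℤ × ℤ) (h : hn (q - p) = 1) : hn q ≤ hn p + 1 := by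
  unfold hn at *
  simp only [Prod.fst_sub, Prod.snd_sub] at h
  omega

section

variable {V : Type} [Fintype V] {G : SimpleGraph V} {I : Type}
  {i : I → ℤ × ℤ → V} {r : I → ℤ × ℤ → ℤ × ℤ}

theorem comb_in (hP : ∀ k, Patch G (i k))
    (hD : ∀ k l p q, k ≠ l → hn p ≤ 6 → hn q ≤ 6 → i k p ≠ i l q) (k : I) (p : ℤ × ℤ)
    (hp : hn p ≤ 3) : comb i r (i k p) = i k (r k p) := by
  have h : ∃ kp : I × (ℤ × ℤ), hn kp.2 ≤ 3 ∧ i kp.1 kp.2 = i k p := ⟨(k, p), hp, rfl⟩
  unfold comb
  rw [dif_pos h]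
  have hs := h.choose_spec
  set kp := h.choose with hkp
  have h1 : kp.1 = k := by
    by_contra hne
    exact hD kp.1 k kp.2 p hne (by omega) (by omega) hs.2
  have h2 : kp.2 = p := by
    have h3 := hs.2
    rw [h1] at h3
    exact (hP k).inj _ _ (by omega) (by omega) h3
  rw [h1, h2]

theorem comb_out (v : V) (h : ∀ k p, hn p ≤ 3 → i k p ≠ v) : comb i r v = v := by
  unfold comb
  rw [dif_neg]
  rintro ⟨kp, h1, h2⟩
  exact h kp.1 kp.2 h1 h2

theorem comb_six (hP : ∀ k, Patch G (i k)) (hG : ∀ k, Good (r k))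
    (hD : ∀ k l p q, k ≠ l → hn p ≤ 6 → hn q ≤ 6 → i k p ≠ i l q) (k : I) (p : ℤ × ℤ)
    (hp : hn p ≤ 6) : comb i r (i k p) = i k (r k p) := by
  by_cases h3 : hn p ≤ 3
  · exact comb_in hP hD k p h3
  · rw [(hG k).out p (by omega)]
    apply comb_out
    intro l q hq he
    by_cases hl : l = k
    · subst hl
      have := (hP l).inj _ _ (by omega) hp he
      subst this
      exact h3 hq
    · exact hD l k q p hl (by omega) hp he

theorem r_six (hG : ∀ k, Good (r k)) (k : I) (q : ℤ × ℤ) (hq : hn q ≤ 6) : hn (r k q) ≤ 6 := by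
  by_cases h3 : hn q ≤ 3
  · have := (hG k).inn q h3
    omega
  · rw [(hG k).out q (by omega)]
    exact hq

theorem comb_cases (hP : ∀ k, Patch G (i k)) (hG : ∀ k, Good (r k))
    (hD : ∀ k l p q, k ≠ l → hn p ≤ 6 → hn q ≤ 6 → i k p ≠ i l q) (u : V) :
    comb i r u = u ∨ ∃ l p, hn p ≤ 3 ∧ u = i l p ∧ comb i r u = i l (r l p) ∧ hn (r l p) ≤ 3 := by
  by_cases h : ∃ l p, hn p ≤ 3 ∧ i l p = u
  · obtain ⟨l, p, hp, rfl⟩ := h
    exact Or.inr ⟨l, p, hp, rfl, comb_in hP hD l p hp, (hG l).inn p hp⟩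
  · left
    apply comb_out
    intro k p hp he
    exact h ⟨k, p, hp, he⟩

theorem comb_idem (hP : ∀ k, Patch G (i k)) (hG : ∀ k, Good (r k))
    (hD : ∀ k l p q, k ≠ l → hn p ≤ 6 → hn q ≤ 6 → i k p ≠ i l q) (v : V) :
    comb i r (comb i r v) = comb i r v := by
  rcases comb_cases hP hG hD v with h | ⟨l, p, hp, hu, hc, hr⟩
  · rw [h, h]
  · rw [hc, comb_in hP hD l _ hr, (hG l).idem]

theorem comb_pre (hP : ∀ k, Patch G (i k)) (hG : ∀ k, Good (r k))
    (hD : ∀ k l p q, k ≠ l → hn p ≤ 6 → hn q ≤ 6 → i k p ≠ i l q) (u : V) (k : I) (x : ℤ × ℤ)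
    (hx : hn x ≤ 5) (hrx : r k x = x) (h : comb i r u = i k x) :
    ∃ p, u = i k p ∧ r k p = x ∧ hn p ≤ 5 := by
  rcases comb_cases hP hG hD u with h1 | ⟨l, p, hp, hu, hc, hr⟩
  · exact ⟨x, by rw [← h1, h], hrx, hx⟩
  · rw [hc] at h
    have hl : l = k := by
      by_contra hne
      exact hD l k _ _ hne (by omega) (by omega) h
    subst hl
    exact ⟨p, hu, (hP l).inj _ _ (by omega) (by omega) h, by omega⟩

end

theorem qd : StmtQD := by
  intro V _ G I i r hP hG hD hk
  refine ⟨?_, comb_idem hP hG hD, fun k p hp => comb_six hP hG hD k p hp⟩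
  intro R _ hR
  by_cases hfix : ∃ x ∈ R, comb i r x ≠ x
  · obtain ⟨x, hx, hne⟩ := hfix
    refine ⟨x, hx, ?_⟩
    have h0 : (R.filter (fun y => (QG G (comb i r)).Adj x y)) = ∅ := by
      apply filter_eq_empty_iff.2
      rintro y _ ⟨_, u, v, hu, _, _⟩
      apply hne
      rw [← hu]
      exact comb_idem hP hG hD u
    unfold dR
    rw [h0]
    simp
  · push Not at hfix
    by_cases hcase : ∃ k p, hn p ≤ 5 ∧ i k p ∈ R
    · obtain ⟨k, p₀, hp₀, hmem⟩ := hcase
      set R' : Finset (ℤ × ℤ) := (hB 5).filter (fun p => i k p ∈ R) with hR'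
      have hmR' : ∀ q, q ∈ R' ↔ hn q ≤ 5 ∧ i k q ∈ R := by
        intro q
        rw [hR', mem_filter, mem_hB]
      have hne : R'.Nonempty := ⟨p₀, (hmR' p₀).2 ⟨hp₀, hmem⟩⟩
      have hall : ∀ x ∈ R', hn x ≤ 5 ∧ r k x = x := by
        intro x hx
        obtain ⟨h1, h2⟩ := (hmR' x).1 hx
        refine ⟨h1, ?_⟩
        have h3 := hfix _ h2
        rw [comb_six hP hG hD k x (by omega)] at h3
        exact (hP k).inj _ _ (r_six hG k x (by omega)) (by omega) h3
      obtain ⟨x, hx, hcard⟩ := (hG k).del R' hne hall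
      have hx' := (hmR' x).1 hx
      refine ⟨i k x, hx'.2, le_trans ?_ hcard⟩
      refine le_trans (card_le_card ?_) (card_image_le (f := i k))
      intro y hy
      rw [mem_filter] at hy
      obtain ⟨hyR, hne', u, v, hu, hv, huv⟩ := hy
      obtain ⟨p, rfl, hrp, hp5⟩ := comb_pre hP hG hD u k x hx'.1 (hall x hx).2 hu
      obtain ⟨q, hq1, rfl⟩ := ((hP k).nb p hp5 v).1 huv
      have hq6 : hn q ≤ 6 := by
        have := hn_step p q hq1
        omega
      rw [comb_six hP hG hD k q hq6] at hv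
      rw [mem_image]
      refine ⟨r k q, ?_, hv⟩
      rw [mem_filter, mem_hB]
      have h6 := r_six hG k q hq6
      refine ⟨h6, ?_, ?_, p, q, hrp, rfl, hq1⟩
      · by_cases h5 : hn (r k q) ≤ 5
        · left
          rw [hmR']
          exact ⟨h5, by rw [hv]; exact hyR⟩
        · right
          omega
      · intro he
        apply hne'
        rw [← hv, he]
    · push Not at hcase
      obtain ⟨k, hdeg⟩ := hk
      have hsub : R ⊆ univ \ core (i k) := by
        intro x hx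
        rw [mem_sdiff]
        refine ⟨mem_univ _, ?_⟩
        intro hc
        unfold core at hc
        rw [mem_image] at hc
        obtain ⟨p, hp, rfl⟩ := hc
        rw [mem_hB] at hp
        exact hcase k p hp hx
      obtain ⟨x, hx, hd⟩ := hdeg R hsub hR
      refine ⟨x, hx, le_trans (card_le_card ?_) hd⟩
      intro y hy
      rw [mem_filter] at hy ⊢
      obtain ⟨hyR, hne', u, v, hu, hv, huv⟩ := hy
      have key : ∀ z ∈ R, ∀ w, comb i r w = z → w = z := by
        intro z hz w hw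
        rcases comb_cases hP hG hD w with h1 | ⟨l, p, hp, hu', hc, hr⟩
        · rw [← h1, hw]
        · exfalso
          rw [hc] at hw
          exact hcase l (r l p) (by omega) (hw ▸ hz)
      have h1 := key x hx u hu
      have h2 := key y hyR v hv
      subst h1
      subst h2
      exact ⟨hyR, huv⟩

end Pool.Agent.Helper4.KC
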